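import Pool.Agent.Helper29.WV.ArrB
import Pool.Agent.Helper29.WV.Iso
import Pool.Agent.Helper29.WV.NW
import Pool.Agent.Helper30.WC.Main
import Pool.Agent.Helper30.WC.NWC

/-!
MP_722e70_co, question 1 for all pairs `(G, t)` with `K_t` not contained in `G`.

`Arrows`, `REquiv`, `KPend`, `KWoven`, `Woven` are defined in `Pool.Agent.Helper29.WV.Defs`, the explicit
trees `Star s` and `Cat lam k` in `Pool.Agent.Helper29.WV.Wov`.
-/

namespace Pool.Agent.Results.MP_722e70_co.ConnectedWoven

open SimpleGraph WV

/-- (1) If a finite connected graph `G` without `K_t` satisfies `(G, K_t) ~ (G, K_t . K_2)`, where `t ≥ 3`, then `G` is woven.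
(2) The connected woven graphs are exactly: the one vertex graph, the stars with at least two edges, and the
caterpillars `C(lam,k)` with `k < lam`. -/
theorem result :
    (∀ (V : Type) [Fintype V] (G : SimpleGraph V), G.Connected →
      ∀ t : ℕ, 3 ≤ t → G.CliqueFree t → REquiv G (⊤ : SimpleGraph (Fin t)) G (KPend t) → Woven G) ∧
    (∀ (V : Type) [Fintype V] (G : SimpleGraph V), G.Connected →
      (Woven G ↔ Fintype.card V = 1 ∨ (∃ s : ℕ, 2 ≤ s ∧ Nonempty (G ≃g Star s)) ∨
        ∃ lam k : ℕ, k < lam ∧ Nonempty (G ≃g Cat lam k))) := by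
  have fam : ∀ (V : Type) [Fintype V] (T : SimpleGraph V), T.IsTree → ¬ Good T →
      Fintype.card V = 1 ∨ (∃ s : ℕ, 2 ≤ s ∧ Nonempty (T ≃g Star s)) ∨
        ∃ lam k : ℕ, k < lam ∧ Nonempty (T ≃g Cat lam k) := by
    intro V _ T hT hG
    by_cases h1 : Fintype.card V = 1
    · exact Or.inl h1
    · right
      have hpos : 0 < Fintype.card V := Fintype.card_pos_iff.2 hT.connected.nonempty
      obtain ⟨R, hR, h⟩ := thmA hT (by omega) hG
      subst hR
      rcases h with h | ⟨d, dp, h⟩
      · exact Or.inl (star_of_fam h)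
      · exact Or.inr (cat_of_fam h)
  have wov : ∀ (V : Type) [Fintype V] (T : SimpleGraph V),
      (Fintype.card V = 1 ∨ (∃ s : ℕ, 2 ≤ s ∧ Nonempty (T ≃g Star s)) ∨
        ∃ lam k : ℕ, k < lam ∧ Nonempty (T ≃g Cat lam k)) → Woven T := by
    rintro V _ T (h | ⟨s, hs, ⟨e⟩⟩ | ⟨lam, k, hk, ⟨e⟩⟩)
    · exact woven_one h
    · exact (woven_star hs).iso e.symm
    · exact (woven_cat hk).iso e.symm
  constructor
  · intro V _ T hC t ht hfree hEq
    by_cases hA : T.IsAcyclic
    · have hT : T.IsTree := ⟨hC, hA⟩
      by_contra hW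
      by_cases hG : Good T
      · have hcard : 2 ≤ Fintype.card V := by
          by_contra hc
          have hpos : 0 < Fintype.card V := Fintype.card_pos_iff.2 hT.connected.nonempty
          exact hW (woven_one (by omega))
        obtain ⟨r, rfl⟩ : ∃ r, t = r + 2 := ⟨t - 2, by omega⟩
        exact thmB hT hcard hG r (by omega) hEq
      · exact hW (wov V T (fam V T hT hG))
    · exact absurd hEq (WC.cyc T hC hA ht hfree)
  · intro V _ T hC
    constructor
    · intro hW
      by_cases hA : T.IsAcyclic
      · have hT : T.IsTree := ⟨hC, hA⟩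
        by_contra hc
        by_cases hG : Good T
        · exact good_not_woven hT hG hW
        · exact hc (fam V T hT hG)
      · exfalso
        obtain ⟨a, b, hab, h⟩ := WC.exists_edge T hC hA
        exact WC.not_woven_of_edge T a b hab h hW
    · exact wov V T

end Pool.Agent.Results.MP_722e70_co.ConnectedWoven
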